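import Pool.Agent.H66.SYM.Basic

/-!
# Module LIM: the limits for `τ`
-/

namespace Pool.H66.SYM

open Filter Topology

noncomputable section

/-- The index set of the basis. -/
abbrev LIM_X (A : Aut) (τ : A.Cusp) (m : ℕ) : Type := {z : A.Cusp // ∃ d H, z ∈ A.Irr τ m d H}

theorem LIM_Bd_add {V : Type} {f g : V → ℂ} (hf : Bd f) (hg : Bd g) : Bd (f + g) := by
  obtain ⟨C, hC⟩ := hf
  obtain ⟨D, hD⟩ := hg
  exact ⟨C + D, fun v => (norm_add_le _ _).trans (add_le_add (hC v) (hD v))⟩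

theorem LIM_Bd_mul {V : Type} {f g : V → ℂ} (hf : Bd f) (hg : Bd g) : Bd (f * g) := by
  obtain ⟨C, hC⟩ := hf
  obtain ⟨D, hD⟩ := hg
  refine ⟨C * D, fun v => ?_⟩
  rw [Pi.mul_apply, norm_mul]
  exact mul_le_mul (hC v) (hD v) (norm_nonneg _) ((norm_nonneg _).trans (hC v))

theorem LIM_Bd_smul {V : Type} (a : ℂ) {f : V → ℂ} (hf : Bd f) : Bd fun v => a * f v := by
  obtain ⟨C, hC⟩ := hf
  refine ⟨‖a‖ * C, fun v => ?_⟩
  rw [norm_mul]
  exact mul_le_mul_of_nonneg_left (hC v) (norm_nonneg _)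

theorem LIM_Bd_cj {V : Type} {f : V → ℂ} (hf : Bd f) : Bd (cj f) := by
  obtain ⟨C, hC⟩ := hf
  refine ⟨C, fun v => ?_⟩
  simpa [cj] using hC v

theorem LIM_Bd_zero {V : Type} : Bd (0 : V → ℂ) := ⟨0, fun v => by simp⟩

theorem LIM_Bd_sum {V ι : Type} (s : Finset ι) (f : ι → V → ℂ) (hf : ∀ i ∈ s, Bd (f i)) :
    Bd (∑ i ∈ s, f i) := by
  classical
  induction s using Finset.induction_on with
  | empty => simpa using LIM_Bd_zero
  | insert i s hi ih =>
    rw [Finset.sum_insert hi]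
    exact LIM_Bd_add (hf i (Finset.mem_insert_self _ _))
      (ih fun j hj => hf j (Finset.mem_insert_of_mem hj))

theorem LIM_Bd_co {V : Type} {μ : Mean V} {X : Type} (B : Basis' μ X) (k : X →₀ ℤ) :
    Bd (B.co k) := by
  have : B.co k = ∑ x ∈ k.support, fun v => ((k x : ℤ) : ℂ) * B.b x v := by
    ext v
    simp [Basis'.co, Finsupp.sum, Finset.sum_apply]
  rw [this]
  exact LIM_Bd_sum _ _ fun x _ => LIM_Bd_smul _ (B.bd x)

/-- The elements of `RR`. -/
theorem LIM_mem (A : Aut) (τ : A.Cusp) (m : ℕ) (F : A.Pt → ℂ) :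
    F ∈ A.RR τ m ↔ ∃ k : LIM_X A τ m →₀ ℤ, F = fun p => k.sum fun x n => (n : ℂ) * A.tr x.1 p := by
  classical
  unfold AData.RR
  rw [mem_closure_tr]
  constructor
  · rintro ⟨k, hk, rfl⟩
    refine ⟨k.subtypeDomain fun z => ∃ d H, z ∈ A.Irr τ m d H, ?_⟩
    ext p
    exact (Finsupp.sum_subtypeDomain_index (h := fun z n => ((n : ℤ) : ℂ) * A.tr z p) hk).symm
  · rintro ⟨k, rfl⟩
    refine ⟨k.mapDomain Subtype.val, ?_, ?_⟩
    · intro z hz
      have h1 := Finsupp.mapDomain_support hz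
      rw [Finset.mem_image] at h1
      obtain ⟨x, -, rfl⟩ := h1
      exact x.2
    · ext p
      rw [Finsupp.sum_mapDomain_index]
      · simp
      · intro z n n'
        push_cast
        ring

/-- The mean of a sum. -/
theorem LIM_m_zero {V : Type} (μ : Mean V) : μ.m 0 = 0 := by
  have h := μ.smul 0 (0 : V → ℂ) LIM_Bd_zero
  have e : (fun v => (0 : ℂ) * (0 : V → ℂ) v) = (0 : V → ℂ) := by
    ext v
    simp
  rw [e, zero_mul] at h
  exact h

theorem LIM_m_sum {V ι : Type} (μ : Mean V) (s : Finset ι) (f : ι → V → ℂ)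
    (hf : ∀ i ∈ s, Bd (f i)) : μ.m (∑ i ∈ s, f i) = ∑ i ∈ s, μ.m (f i) := by
  classical
  induction s using Finset.induction_on with
  | empty => simpa using LIM_m_zero μ
  | insert i s hi ih =>
    rw [Finset.sum_insert hi, Finset.sum_insert hi, μ.add _ _ (hf i (Finset.mem_insert_self _ _))
      (LIM_Bd_sum _ _ fun j hj => hf j (Finset.mem_insert_of_mem hj)),
      ih fun j hj => hf j (Finset.mem_insert_of_mem hj)]

/-- The norm of an integer combination. -/
theorem LIM_norm {V : Type} {μ : Mean V} {X : Type} (B : Basis' μ X) (k : X →₀ ℤ) :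
    μ.m (B.co k * cj (B.co k)) = ∑ x ∈ k.support, ((k x : ℤ) : ℂ) ^ 2 := by
  classical
  have e : B.co k * cj (B.co k) = ∑ x ∈ k.support, ∑ y ∈ k.support,
      fun v => (((k x : ℤ) : ℂ) * ((k y : ℤ) : ℂ)) * (B.b x * cj (B.b y)) v := by
    ext v
    simp only [Basis'.co, Finsupp.sum, Finset.sum_apply, Pi.mul_apply, cj, map_sum, map_mul,
      Finset.sum_mul_sum]
    refine Finset.sum_congr rfl fun x _ => Finset.sum_congr rfl fun y _ => ?_
    rw [map_intCast]
    ring
  have hb : ∀ x y, Bd (B.b x * cj (B.b y)) := fun x y => LIM_Bd_mul (B.bd x) (LIM_Bd_cj (B.bd y))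
  rw [e, LIM_m_sum μ _ _ fun x _ => LIM_Bd_sum _ _ fun y _ => LIM_Bd_smul _ (hb x y)]
  refine Finset.sum_congr rfl fun x hx => ?_
  rw [LIM_m_sum μ _ _ fun y _ => LIM_Bd_smul _ (hb x y)]
  rw [Finset.sum_eq_single x]
  · rw [μ.smul _ _ (hb x x), B.norm]
    ring
  · intro y _ hy
    rw [μ.smul _ _ (hb x y), B.orth x y (Ne.symm hy), mul_zero]
  · intro h
    exact absurd hx h

theorem LIM_eq_zero {V : Type} {μ : Mean V} {X : Type} (B : Basis' μ X) (k : X →₀ ℤ)
    (h : μ.m (B.co k * cj (B.co k)) = 0) : k = 0 := by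
  rw [LIM_norm] at h
  have h1 : ∑ x ∈ k.support, (k x) ^ 2 = 0 := by exact_mod_cast h
  rw [Finset.sum_eq_zero_iff_of_nonneg fun x _ => sq_nonneg _] at h1
  ext x
  by_contra hx
  have h2 : x ∈ k.support := Finsupp.mem_support_iff.2 hx
  exact hx (by simpa using h1 x h2)

theorem s_LIM (hBAS : S_BAS) (_hIND : S_IND) (hTMP : S_TMP) (hMEA : S_MEA) (hANA : S_ANA)
    (hRMU : S_RMU) (hRTA : S_RTA) (_hRPS : S_RPS) (hRSY : S_RSY) : S_LIM := by
  intro A τ m M hC
  obtain ⟨h1, h2, h3, h4, -⟩ := hBAS A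
  obtain ⟨hIone, hIτ, -⟩ := hRTA A τ m hC.hm hC.deg
  have hex : ∀ v, ∃ c : Fin m → ℂ, A.Ord τ (A.frob v) c := fun v =>
    exists_ord A.toAData ((h1 τ _).trans hC.deg)
  choose c hc using hex
  have hcn : ∀ v j, ‖c v j‖ = 1 := by
    intro v j
    refine (hTMP A τ m M hC 1 1 τ hIτ).2 v (c v j) ?_
    have h := hc v
    unfold AData.Ord at h
    rw [h]
    exact Multiset.mem_map_of_mem _ (Finset.mem_univ j)
  obtain ⟨μ, hμ⟩ := hMEA A
  have hT : ∀ x : LIM_X A τ m, A.Temp x.1 := fun ⟨z, d, H, hz⟩ => (hTMP A τ m M hC d H z hz).2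
  have hbd : ∀ x : LIM_X A τ m, Bd (A.fr x.1) := by
    intro x
    refine ⟨(A.deg x.1 : ℝ), fun v => ?_⟩
    have hn : ∀ (X : Multiset ℂ), (∀ a ∈ X, ‖a‖ = 1) → ‖X.sum‖ ≤ (X.card : ℝ) := by
      intro X
      induction X using Multiset.induction_on with
      | empty => simp
      | cons a X ih =>
        intro hX
        rw [Multiset.sum_cons, Multiset.card_cons]
        push_cast
        have ha := hX a (Multiset.mem_cons_self _ _)
        have := ih fun b hb => hX b (Multiset.mem_cons_of_mem hb)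
        calc ‖a + X.sum‖ ≤ ‖a‖ + ‖X.sum‖ := norm_add_le _ _
          _ ≤ (X.card : ℝ) + 1 := by linarith
    have := hn (A.eig x.1 (A.frob v)) (hT x v)
    rw [h1] at this
    exact this
  let B : Basis' μ (LIM_X A τ m) :=
    { b := fun x => A.fr x.1
      x0 := ⟨A.one, 0, 0, hIone⟩
      bd := hbd
      b0 := by
        ext v
        simp [AData.fr, AData.tr, h4]
      norm := fun x => (hμ x.1 x.1 (hT x) (hT x)).1 rfl
      orth := fun x y hxy => (hμ x.1 y.1 (hT x) (hT y)).2 fun h => hxy (Subtype.ext h) }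
  obtain ⟨O⟩ := hANA A.Pl μ (LIM_X A τ m) B
  have hco : ∀ k : LIM_X A τ m →₀ ℤ, ∀ v, B.co k v =
      k.sum fun x n => (n : ℂ) * A.tr x.1 (A.frob v) := fun k v => rfl
  have hUni : ∀ a : Fin m → ℤ, Uni fun v => mon (c v) a := fun a v => mon_norm _ (hcn v) a
  refine ⟨{ Q := O.Q
            c := c
            c_ord := hc
            c_norm := hcn
            M := O.M
            E := fun a => O.E fun v => mon (c v) a
            bd := ?_
            M_one := O.M_one
            M_add := O.M_add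
            M_mul := O.M_mul
            inj := ?_
            E_zero := ?_
            E_idem := fun a => O.E_idem _ (hUni a)
            lim := ?_
            per := ?_ }⟩
  · intro F hF
    obtain ⟨k, rfl⟩ := (LIM_mem A τ m F).1 hF
    exact LIM_Bd_co B k
  · intro F hF h0
    obtain ⟨k, rfl⟩ := (LIM_mem A τ m F).1 hF
    have h5 := O.M_zero (B.co k) (LIM_Bd_co B k) h0
    have h6 := LIM_eq_zero B k h5
    rw [h6]
    ext p
    simp
  · have : (fun v => mon (c v) (0 : Fin m → ℤ)) = (1 : A.Pl → ℂ) := by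
      ext v
      simp [mon_zero]
    rw [this]
    exact O.E_one
  · intro ι _ f a hf G hG hGe
    have hk : ∀ n : ℕ, ∃ k : LIM_X A τ m →₀ ℤ, 1 ≤ n →
        G n = fun p => k.sum fun x n => (n : ℂ) * A.tr x.1 p := by
      intro n
      by_cases hn : 1 ≤ n
      · obtain ⟨k, hk⟩ := (LIM_mem A τ m (G n)).1 (hG n hn)
        exact ⟨k, fun _ => hk⟩
      · exact ⟨0, fun h => absurd h hn⟩
    choose k hk using hk
    obtain ⟨k', hk'⟩ := O.lim ι f (fun j v => mon (c v) (a j)) hf (fun j => hUni (a j)) k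
      (by
        intro n hn v
        rw [hGe n hn v, hk n hn]
        rfl)
    exact ⟨_, (LIM_mem A τ m _).2 ⟨k', rfl⟩, hk'⟩
  · intro a
    obtain ⟨-, -, -, -, hRR, -⟩ := hRMU A τ m (hC.sym 2) hC.hm hC.deg
    set d : ℤ := ∑ j, a j with hd
    set H : ℕ := (∑ j, |a j|).toNat with hH
    have haW : a ∈ Wt m d H := by
      refine ⟨hd.symm, ?_⟩
      rw [hH, Int.toNat_of_nonneg (Finset.sum_nonneg fun j _ => abs_nonneg _)]
    have hk : ∀ n : ℕ, ∃ k : LIM_X A τ m →₀ ℤ, ∀ v,
        ∑ σ : Equiv.Perm (Fin m), mon (c v) (a ∘ σ) ^ n = B.co k v := by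
      intro n
      have h7 := hRSY A τ m hC.sym hC.hm hC.deg (n * d) (n * H)
        (∑ σ : Equiv.Perm (Fin m), Finsupp.single ((n : ℤ) • (a ∘ σ)) 1) ?_ ?_
      · obtain ⟨F, hF, hFe⟩ := h7
        obtain ⟨k, hk⟩ := (LIM_mem A τ m F).1 (hRR _ _ hF)
        refine ⟨k, fun v => ?_⟩
        have h8 := hFe (A.frob v) (c v) (hc v)
        rw [ev_sum] at h8
        simp only [ev_single, mon_smul, Int.cast_one, one_mul, zpow_natCast] at h8
        rw [← h8, hk]
        rfl
      · intro b hb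
        classical
        have h9 := Finsupp.support_finsetSum hb
        rw [Finset.mem_biUnion] at h9
        obtain ⟨σ, -, hσ⟩ := h9
        have h10 := Finsupp.support_single_subset hσ
        rw [Finset.mem_singleton] at h10
        rw [h10]
        exact Wt_smul (Wt_comp haW σ) n
      · intro ρ b
        simp only [Finsupp.finsetSum_apply, Finsupp.single_apply]
        have h11 : ∀ σ : Equiv.Perm (Fin m),
            ((n : ℤ) • (a ∘ (σ : Fin m → Fin m)) = b ∘ ρ) ↔
              ((n : ℤ) • (a ∘ ((ρ⁻¹).trans σ : Equiv.Perm (Fin m))) = b) := by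
          intro σ
          constructor
          · intro h
            ext j
            have := congrFun h (ρ⁻¹ j)
            simpa using this
          · intro h
            ext j
            have := congrFun h (ρ j)
            simpa using this
        simp only [h11]
        refine Fintype.sum_equiv (Equiv.mulRight ρ⁻¹) _ _ fun σ => ?_
        rfl
    choose k hk using hk
    obtain ⟨q, hq, hqe⟩ := O.per (Equiv.Perm (Fin m)) (fun σ v => mon (c v) (a ∘ σ))
      (fun σ => hUni _) k (fun n _ v => hk n v)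
    exact ⟨q, hq, hqe⟩

end

end Pool.H66.SYM
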