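import Pool.Agent.H66.SYM.Basic

/-!
# Module RPS: symmetric powers and Adams operations
-/

namespace Pool.H66.SYM

open Filter Topology

/-- Multisets of nonzero complex numbers with the same power sums are equal. -/
theorem RPS_van (hVAN : S_VAN) (X Y : Multiset ℂ) (hX : (0 : ℂ) ∉ X) (hY : (0 : ℂ) ∉ Y)
    (h : ∀ n : ℕ, 1 ≤ n → (X.map fun a => a ^ n).sum = (Y.map fun a => a ^ n).sum) : X = Y := by
  classical
  set s : Finset ℂ := X.toFinset ∪ Y.toFinset with hs
  let φ : ℂ →₀ ℂ := Finsupp.onFinset s (fun e => (X.count e : ℂ) - (Y.count e : ℂ)) (by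
    intro e he
    by_contra hc
    rw [hs, Finset.mem_union, not_or, Multiset.mem_toFinset, Multiset.mem_toFinset] at hc
    apply he
    rw [Multiset.count_eq_zero_of_notMem hc.1, Multiset.count_eq_zero_of_notMem hc.2]
    simp)
  have hφ : φ = 0 := by
    apply hVAN φ
    · intro e he
      have h1 : e ∈ s := Finsupp.support_onFinset_subset he
      rw [hs, Finset.mem_union, Multiset.mem_toFinset, Multiset.mem_toFinset] at h1
      rintro rfl
      rcases h1 with h1 | h1
      exacts [hX h1, hY h1]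
    · intro n hn
      have h1 := h n hn
      rw [Finset.sum_multiset_map_count, Finset.sum_multiset_map_count] at h1
      have e1 : ∑ e ∈ X.toFinset, X.count e • e ^ n = ∑ e ∈ s, (X.count e : ℂ) * e ^ n := by
        rw [← Finset.sum_subset (Finset.subset_union_left : X.toFinset ⊆ s)]
        · simp
        · intro e _ he
          rw [Multiset.mem_toFinset] at he
          rw [Multiset.count_eq_zero_of_notMem he]
          simp
      have e2 : ∑ e ∈ Y.toFinset, Y.count e • e ^ n = ∑ e ∈ s, (Y.count e : ℂ) * e ^ n := by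
        rw [← Finset.sum_subset (Finset.subset_union_right : Y.toFinset ⊆ s)]
        · simp
        · intro e _ he
          rw [Multiset.mem_toFinset] at he
          rw [Multiset.count_eq_zero_of_notMem he]
          simp
      rw [e1, e2] at h1
      rw [Finsupp.onFinset_sum _ (by simp)]
      simp only [sub_mul]
      rw [Finset.sum_sub_distrib, h1, sub_self]
  ext e
  have h1 : φ e = 0 := by rw [hφ]; rfl
  have h2 : (X.count e : ℂ) - (Y.count e : ℂ) = 0 := h1
  have h3 := sub_eq_zero.1 h2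
  exact_mod_cast h3

theorem RPS_sum_pow (hBAS : S_BAS) (A : Aut) (Q : Multiset A.Cusp) (p : A.Pt) (n : ℕ) :
    (A.eigs Q (p.pow n)).sum = ((A.eigs Q p).map fun a => a ^ n).sum := by
  obtain ⟨-, -, h3, -⟩ := hBAS A
  induction Q using Multiset.induction_on with
  | empty => simp [AData.eigs]
  | cons z Q ih =>
    rw [eigs_cons, eigs_cons, Multiset.sum_add, Multiset.map_add, Multiset.sum_add, ih, h3]
    simp

theorem RPS_ne (hBAS : S_BAS) (A : Aut) (Q : Multiset A.Cusp) (p : A.Pt) :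
    (0 : ℂ) ∉ A.eigs Q p := by
  obtain ⟨-, h2, -⟩ := hBAS A
  rw [mem_eigs]
  rintro ⟨σ, -, h⟩
  exact h2 σ p h

/-- Products of monomials. -/
theorem RPS_prod {m : ℕ} (c : Fin m → ℂ) (hc : ∀ j, c j ≠ 0) (d : ℤ) (H : ℕ) (Z : Multiset ℂ)
    (hZ : ∀ z ∈ Z, ∃ a ∈ Wt m d H, z = mon c a) :
    ∃ a ∈ Wt m ((Z.card : ℤ) * d) (Z.card * H), Z.prod = mon c a := by
  induction Z using Multiset.induction_on with
  | empty =>
    refine ⟨0, ?_, ?_⟩
    · simpa using Wt_zero m 0
    · simp [mon_zero]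
  | cons z Z ih =>
    obtain ⟨a, ha, hza⟩ := hZ z (Multiset.mem_cons_self _ _)
    obtain ⟨b, hb, hzb⟩ := ih fun w hw => hZ w (Multiset.mem_cons_of_mem hw)
    refine ⟨a + b, ?_, ?_⟩
    · have h := Wt_add ha hb
      have e1 : d + (Z.card : ℤ) * d = ((z ::ₘ Z).card : ℤ) * d := by
        rw [Multiset.card_cons]; push_cast; ring
      have e2 : H + Z.card * H = (z ::ₘ Z).card * H := by
        rw [Multiset.card_cons]; ring
      rwa [e1, e2] at h
    · rw [Multiset.prod_cons, mon_add c hc, hza, hzb]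

theorem RPS_card (A : Aut) (Q : Multiset A.Cusp) (p : A.Pt) (z : A.Cusp) (hz : z ∈ Q) :
    (A.eig z p).card ≤ (A.eigs Q p).card := by
  obtain ⟨P, rfl⟩ := Multiset.exists_cons_of_mem hz
  rw [eigs_cons, Multiset.card_add]
  exact Nat.le_add_right _ _

theorem RPS_tr_mem (A : Aut) (τ : A.Cusp) (m : ℕ) (d : ℤ) (H : ℕ) (Q : Multiset A.Cusp)
    (hQ : ∀ z ∈ Q, z ∈ A.Irr τ m d H) : (fun p => (A.eigs Q p).sum) ∈ A.RH τ m d H := by
  induction Q using Multiset.induction_on with
  | empty =>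
    have : (fun p => (A.eigs (0 : Multiset A.Cusp) p).sum) = 0 := by
      ext p
      simp [AData.eigs]
    rw [this]
    exact AddSubgroup.zero_mem _
  | cons z Q ih =>
    have : (fun p => (A.eigs (z ::ₘ Q) p).sum) = A.tr z + fun p => (A.eigs Q p).sum := by
      ext p
      rw [eigs_cons, Multiset.sum_add]
      rfl
    rw [this]
    refine AddSubgroup.add_mem _ ?_ (ih fun w hw => hQ w (Multiset.mem_cons_of_mem hw))
    exact AddSubgroup.subset_closure (Set.mem_image_of_mem _ (hQ z (Multiset.mem_cons_self _ _)))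

theorem RPS_one (hBAS : S_BAS) (hSYM : S_SYM) (hVAN : S_VAN) (A : Aut) (τ : A.Cusp) (m : ℕ)
    (hsym : ∀ k, A.HasSym k) (d : ℤ) (H : ℕ) (z : A.Cusp)
    (hz : z ∈ A.Irr τ m d H) (k : ℕ) :
    (fun p => hs k (A.eig z p)) ∈ A.RH τ m (k * d) (k * H) := by
  obtain ⟨h1, h2, h3, -⟩ := hBAS A
  obtain ⟨Q, hQ⟩ := hsym k {z}
  simp only [eigs_singleton] at hQ
  have key : ∀ p, ∃ Y : Multiset ℂ, A.eigs Q p = Y ∧ Y.card ≤ (A.eig z p).card ^ k ∧
      ∀ e ∈ Y, ∃ Z : Multiset ℂ, Z.card = k ∧ (∀ z' ∈ Z, z' ∈ A.eig z p) ∧ e = Z.prod := by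
    intro p
    obtain ⟨Y, hY1, hY2, hY3⟩ := hSYM k (A.eig z p) (h2 z p)
    refine ⟨Y, ?_, hY1, hY3⟩
    apply RPS_van hVAN _ _ (RPS_ne hBAS A Q p)
    · intro h0
      obtain ⟨Z, -, hZ, hZ0⟩ := hY3 0 h0
      have := Multiset.prod_eq_zero_iff.1 hZ0.symm
      exact h2 z p (hZ 0 this)
    · intro n hn
      rw [← RPS_sum_pow hBAS, hQ, h3]
      have := hY2 n
      simp only [zpow_natCast] at this ⊢
      rw [this]
  have hmem : ∀ w ∈ Q, w ∈ A.Irr τ m (k * d) (k * H) := by
    intro w hw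
    constructor
    · obtain ⟨Y, hY1, hY2, -⟩ := key (A.frob A.inf)
      calc A.deg w = (A.eig w (A.frob A.inf)).card := (h1 w _).symm
        _ ≤ (A.eigs Q (A.frob A.inf)).card := RPS_card A Q _ w hw
        _ = Y.card := by rw [hY1]
        _ ≤ (A.eig z (A.frob A.inf)).card ^ k := hY2
        _ = A.deg z ^ k := by rw [h1]
        _ ≤ (m ^ H) ^ k := Nat.pow_le_pow_left hz.1 k
        _ = m ^ (k * H) := by rw [← pow_mul, mul_comm]
    · intro p c hc e he
      obtain ⟨Y, hY1, -, hY3⟩ := key p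
      have heY : e ∈ Y := by
        rw [← hY1, mem_eigs]
        exact ⟨w, hw, he⟩
      obtain ⟨Z, hZ1, hZ2, hZ3⟩ := hY3 e heY
      have hc0 : ∀ j, c j ≠ 0 := by
        intro j h0
        apply h2 τ p
        rw [hc, ← h0]
        exact Multiset.mem_map_of_mem _ (Finset.mem_univ j)
      obtain ⟨a, ha, hZa⟩ := RPS_prod c hc0 d H Z fun z' hz' => hz.2 p c hc z' (hZ2 z' hz')
      rw [hZ1] at ha
      exact ⟨a, ha, hZ3.trans hZa⟩
  have := RPS_tr_mem A τ m (k * d) (k * H) Q hmem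
  simpa only [hQ] using this

theorem s_RPS (hBAS : S_BAS) (hRMU : S_RMU) (hRTA : S_RTA) (hSYM : S_SYM) (hPNH : S_PNH)
    (hVAN : S_VAN) : S_RPS := by
  intro A τ m hsym hm hdeg
  have hone := RPS_one hBAS hSYM hVAN A τ m hsym
  obtain ⟨-, -, h3, h4, -⟩ := hBAS A
  obtain ⟨-, -, hmul, -, hRR, -⟩ := hRMU A τ m (hsym 2) hm hdeg
  obtain ⟨hI1, -⟩ := hRTA A τ m hm hdeg
  have h1RH : (1 : A.Pt → ℂ) ∈ A.RH τ m 0 0 := by
    have : (1 : A.Pt → ℂ) = A.tr A.one := by
      ext p
      simp [AData.tr, h4]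
    rw [this]
    exact AddSubgroup.subset_closure (Set.mem_image_of_mem _ hI1)
  have hlist : ∀ d H z, z ∈ A.Irr τ m d H → ∀ l : List ℕ,
      (fun p => (l.map fun k => hs k (A.eig z p)).prod) ∈
        A.RH τ m ((l.sum : ℕ) * d) (l.sum * H) := by
    intro d H z hz l
    induction l with
    | nil =>
      have : (fun p : A.Pt => (([] : List ℕ).map fun k => hs k (A.eig z p)).prod) = 1 := by
        ext p
        simp
      rw [this]
      simpa using h1RH
    | cons k l ih =>
      have h := hmul _ _ _ _ _ (hone d H z hz k) _ ih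
      have e1 : (k : ℤ) * d + (l.sum : ℕ) * d = (((k :: l).sum : ℕ) : ℤ) * d := by
        rw [List.sum_cons]; push_cast; ring
      have e2 : k * H + l.sum * H = (k :: l).sum * H := by
        rw [List.sum_cons]; ring
      rw [e1, e2] at h
      convert h using 1
      ext p
      simp
  have hadams : ∀ d H, ∀ F ∈ A.RH τ m d H, ∀ n : ℕ, 1 ≤ n →
      (fun p => F (p.pow n)) ∈ A.RH τ m (n * d) (n * H) := by
    intro d H F hF n hn
    unfold AData.RH at hF
    refine AddSubgroup.closure_induction (p := fun F _ =>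
      (fun p : A.Pt => F (p.pow n)) ∈ A.RH τ m (n * d) (n * H)) ?_ ?_ ?_ ?_ hF
    · rintro _ ⟨z, hz, rfl⟩
      obtain ⟨φ, hφ1, hφ2⟩ := hPNH n hn
      have e : (fun p : A.Pt => A.tr z (p.pow n)) =
          ∑ l ∈ φ.support, φ l • fun p : A.Pt => (l.map fun k => hs k (A.eig z p)).prod := by
        ext p
        unfold AData.tr
        rw [h3]
        simp only [zpow_natCast]
        rw [hφ2, Finsupp.sum, Finset.sum_apply]
        refine Finset.sum_congr rfl fun l _ => ?_
        simp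
      rw [e]
      refine AddSubgroup.sum_mem _ fun l hl => AddSubgroup.zsmul_mem _ ?_ _
      have := hlist d H z hz l
      rwa [hφ1 l hl] at this
    · exact AddSubgroup.zero_mem _
    · intro F G _ _ h1 h2
      exact AddSubgroup.add_mem _ h1 h2
    · intro F _ h1
      exact AddSubgroup.neg_mem _ h1
  refine ⟨fun d H z hz k => hone d H z hz k, hadams, ?_⟩
  intro F hF n hn
  unfold AData.RR at hF
  refine AddSubgroup.closure_induction (p := fun F _ =>
    (fun p : A.Pt => F (p.pow n)) ∈ A.RR τ m) ?_ ?_ ?_ ?_ hF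
  · rintro _ ⟨z, ⟨d, H, hz⟩, rfl⟩
    apply hRR (n * d) (n * H)
    exact hadams d H _ (AddSubgroup.subset_closure (Set.mem_image_of_mem _ hz)) n hn
  · exact AddSubgroup.zero_mem _
  · intro F G _ _ h1 h2
    exact AddSubgroup.add_mem _ h1 h2
  · intro F _ h1
    exact AddSubgroup.neg_mem _ h1

end Pool.H66.SYM
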